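import Pool.Agent.H.MP_d66326_al.D

set_option autoImplicit false

namespace Pool.Agent.Results.MP_d66326_al.No
open MulAction

def IsSplitting (H T : Type) [Group H] [MulAction H T] (Γ : SimpleGraph T) (F : Set T) : Prop :=
  Γ.IsTree ∧ (∀ (g : H) u v, Γ.Adj u v → Γ.Adj (g • u) (g • v)) ∧
    (∀ (g : H) u v, Γ.Adj u v → ¬ (g • u = v ∧ g • v = u)) ∧
    (F.Finite ∧ ∀ v, ∃ g : H, g • v ∈ F) ∧
    (∃ E : Set (T × T), E.Finite ∧ ∀ u v, Γ.Adj u v → ∃ g : H, (g • u, g • v) ∈ E) ∧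
    (∀ u v, Γ.Adj u v → (stabilizer H u ⊓ stabilizer H v).FG) ∧
    ∀ v : T, ∃ g : H, g • v ≠ v

inductive Accessible : (H : Type) → [Group H] → Prop
  | stop (H : Type) [Group H] :
      (∀ (T : Type) [MulAction H T] (Γ : SimpleGraph T) (F : Set T), ¬ IsSplitting H T Γ F) →
      Accessible H
  | step (H : Type) [Group H] (T : Type) [MulAction H T] (Γ : SimpleGraph T) (F : Set T) :
      IsSplitting H T Γ F → (∀ v ∈ F, Accessible (stabilizer H v)) → Accessible H

open Pool.Agent.H.MP_d66326_al in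
theorem result : ∃ (G : Type) (_ : Group G), Group.IsFinitelyPresented G ∧ ¬ Accessible G := by
  suffices ∀ (H : Type) [Group H], Accessible H → Group.FG H → ∀ j : H →* E,
      Function.Injective j → (∀ h, (j h).r ∈ R) → (V j ⊤).FG from
    ⟨G, inferInstance, inferInstance, fun h => V_G (this G h
      ⟨(Subgroup.fg_iff _).2 ⟨_, PresentedGroup.closure_range_of _, Set.finite_range _⟩⟩
      ρ ρ_inj ρ_R)⟩
  intro H _ h
  induction h with
  | step H T Γ F h _ ih =>
    intro _ j h1 h2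
    obtain ⟨c1, c2, c3, ⟨c4, c5⟩, ⟨E, c6, c7⟩, c8, -⟩ := h
    exact vert j h1 c1 c2 c3 c4 c5 fun v c => V_sub j _ ▸ ih v c
      ((Group.fg_iff_subgroup_fg _).2 (vfg c1 c2 E c6 c7 c8 v)) _
      (h1.comp Subtype.val_injective) fun h => h2 h
  | stop H h =>
    intro _ j h1 h2
    by_contra h3
    obtain ⟨χ, c1, c2⟩ := split j h1 h2 h3
    obtain ⟨g, c3⟩ : ∃ g, (χ g).toAdd ≠ 0 := by
      by_contra k
      push Not at k
      exact c1 (eq_top_iff.2 fun g _ => k g)
    let : MulAction H ℤ :=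
      { smul := fun g n => (χ g).toAdd + n
        one_smul := fun n => show (χ 1).toAdd + n = n by simp
        mul_smul := fun a b n => show (χ (a * b)).toAdd + n = (χ a).toAdd + ((χ b).toAdd + n) by
          simp [add_assoc] }
    have e : ∀ (g : H) (n : ℤ), g • n = (χ g).toAdd + n := fun _ _ => rfl
    have e1 : ∀ n : ℤ, stabilizer H n = χ.ker := fun n => Subgroup.ext fun g => by
      rw [mem_stabilizer_iff, e, add_eq_right]; rfl
    have e2 : ∀ n : ℤ, ∃ k : H, k • n ∈ Set.Icc 0 |(χ g).toAdd| := fun n =>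
      ⟨g ^ (-(n / (χ g).toAdd)), by
        rw [e, map_zpow, toAdd_zpow, smul_eq_mul, show -(n / (χ g).toAdd) * (χ g).toAdd + n =
          n % (χ g).toAdd by rw [Int.emod_def]; ring]
        exact ⟨Int.emod_nonneg _ c3, (Int.emod_lt_abs _ c3).le⟩⟩
    refine h ℤ (SimpleGraph.hasse ℤ) _ ⟨lineTree, fun k u v => ?_, fun k u v => ?_,
      ⟨Set.finite_Icc _ _, e2⟩, ⟨Set.Icc 0 |(χ g).toAdd| ×ˢ Set.Icc (-1) (|(χ g).toAdd| + 1),
        (Set.finite_Icc _ _).prod (Set.finite_Icc _ _), fun u v c => (e2 u).imp fun k d => ?_⟩,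
      fun u v _ => by rwa [e1, e1, inf_idem], fun v => ⟨g, by simpa [e] using c3⟩⟩
    · simp only [e, SimpleGraph.hasse_adj, Order.covBy_iff_add_one_eq]
      omega
    · simp only [e, SimpleGraph.hasse_adj, Order.covBy_iff_add_one_eq]
      omega
    · simp only [e, SimpleGraph.hasse_adj, Order.covBy_iff_add_one_eq, Set.mem_prod, Set.mem_Icc] at *
      omega

end Pool.Agent.Results.MP_d66326_al.No
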